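import Pool.Agent.Lib.MP_edb5be_nt.PD.Iface

/-!
Project PD (MP_edb5be_nt), module INDUCT (helper50).
-/

set_option autoImplicit false

namespace Pool.Agent.Lib.MP_edb5be_nt.PD.H50

open Finset Pool.Agent.Lib.MP_edb5be_nt.EX Pool.Agent.Lib.MP_edb5be_nt.PD

theorem cube_bound (θ : ℝ) (h0 : 0 < θ) (h1 : θ < 1) :
    ∃ M : ℝ, 0 ≤ M ∧ ∀ k : ℕ, (k : ℝ) ^ 3 * θ ^ k ≤ M := by
  have h := tendsto_pow_const_mul_const_pow_of_abs_lt_one 3 (r := θ)
    (by rw [abs_of_pos h0]; exact h1)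
  obtain ⟨M, hM⟩ := h.bddAbove_range
  refine ⟨max M 0, le_max_right _ _, fun k => le_trans (hM ⟨k, rfl⟩) (le_max_left _ _)⟩

/-- the scales: `nn N t` is at least `N`. -/
theorem nn_ge (N t : ℕ) : N ≤ nn N t := by
  induction t with
  | zero => exact le_refl _
  | succ t ih =>
    show N ≤ nn N t + nn N t / 20
    omega

/-- the loss of one step. -/
theorem loss (θ : ℝ) (h0 : 0 < θ) (M : ℝ) (hM0 : 0 ≤ M)
    (hM : ∀ k : ℕ, (k : ℝ) ^ 3 * θ ^ k ≤ M) (n J J' : ℕ) (hJ : 1 ≤ J)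
    (hn : n ≤ 40 * J) (hJJ : J ≤ J') :
    n * ((n + 1) * (1 / (J : ℝ) ^ 3 + J * θ ^ J + J' * θ ^ J')) ≤ 3200 * (1 + 2 * M) := by
  have hJr : (1 : ℝ) ≤ J := by exact_mod_cast hJ
  have hnr : (n : ℝ) ≤ 40 * J := by exact_mod_cast hn
  have hJJr : (J : ℝ) ≤ J' := by exact_mod_cast hJJ
  have hn0 : (0 : ℝ) ≤ n := Nat.cast_nonneg n
  have hnn : (n : ℝ) * (n + 1) ≤ 3200 * (J : ℝ) ^ 2 := by
    nlinarith
  have e1 : (n : ℝ) * (n + 1) * (1 / (J : ℝ) ^ 3) ≤ 3200 := by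
    have h1 : (J : ℝ) ^ 2 ≤ (J : ℝ) ^ 3 := pow_le_pow_right₀ hJr (by norm_num)
    rw [mul_one_div, div_le_iff₀ (by positivity)]
    linarith
  have e2 : (n : ℝ) * (n + 1) * (J * θ ^ J) ≤ 3200 * M := by
    have h1 := hM J
    have h2 : (0 : ℝ) ≤ J * θ ^ J := by positivity
    calc (n : ℝ) * (n + 1) * (J * θ ^ J) ≤ 3200 * (J : ℝ) ^ 2 * (J * θ ^ J) :=
          mul_le_mul_of_nonneg_right hnn h2
      _ = 3200 * ((J : ℝ) ^ 3 * θ ^ J) := by ring
      _ ≤ 3200 * M := by linarith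
  have e3 : (n : ℝ) * (n + 1) * (J' * θ ^ J') ≤ 3200 * M := by
    have h1 := hM J'
    have h2 : (0 : ℝ) ≤ J' * θ ^ J' := by positivity
    have h3 : (J : ℝ) ^ 2 ≤ (J' : ℝ) ^ 2 := pow_le_pow_left₀ (by positivity) hJJr 2
    calc (n : ℝ) * (n + 1) * (J' * θ ^ J') ≤ 3200 * (J' : ℝ) ^ 2 * (J' * θ ^ J') :=
          mul_le_mul_of_nonneg_right (by linarith) h2
      _ = 3200 * ((J' : ℝ) ^ 3 * θ ^ J') := by ring
      _ ≤ 3200 * M := by linarith
  have e : (n : ℝ) * ((n + 1) * (1 / (J : ℝ) ^ 3 + J * θ ^ J + J' * θ ^ J')) =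
      n * (n + 1) * (1 / (J : ℝ) ^ 3) + n * (n + 1) * (J * θ ^ J) +
        n * (n + 1) * (J' * θ ^ J') := by ring
  rw [e]
  linarith

/-- **INDUCT** -/
theorem induct (hs : StepStatement) (hg : WGwStatement) : InductStatement := by
  obtain ⟨K, θ, hK, h0, h1, hstep⟩ := hs
  obtain ⟨M, hM0, hM⟩ := cube_bound θ h0 h1
  intro Γ
  set C : ℝ := K * (Γ + 1 + 1) * (3200 * (1 + 2 * M)) with hC
  have hC0 : 0 ≤ C := by positivity
  refine ⟨max 20 (⌈800 * C⌉₊ + 1), fun N hN y hy => ?_⟩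
  have hN20 : 20 ≤ N := le_trans (le_max_left _ _) hN
  have hNC : 800 * C ≤ N := by
    have h2 : ⌈800 * C⌉₊ + 1 ≤ N := le_trans (le_max_right _ _) hN
    have h3 := Nat.le_ceil (800 * C)
    have h4 : ((⌈800 * C⌉₊ : ℕ) : ℝ) ≤ N := by exact_mod_cast (by omega : ⌈800 * C⌉₊ ≤ N)
    linarith
  have hNr : (0 : ℝ) < N := by
    have : (20 : ℝ) ≤ N := by exact_mod_cast hN20
    linarith
  -- the invariant
  have key : ∀ t : ℕ, 8 / 10 - 80 * C * (1 / N - 1 / (nn N t : ℝ)) ≤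
      su (WW Γ N t) (Fd (nn N t / 20)) y := by
    intro t
    induction t with
    | zero =>
      have e : (nn N 0 : ℝ) = N := rfl
      rw [e, sub_self, mul_zero, sub_zero]
      exact hy
    | succ t ih =>
      set n : ℕ := nn N t with hn
      have hnN : N ≤ n := nn_ge N t
      have hn20 : 20 ≤ n := hN20.trans hnN
      have e1 : nn N (t + 1) = n + n / 20 := rfl
      have e2 : WW Γ N (t + 1) = cat (WW Γ N t) (Rw (n / 20)) := rfl
      have hst := hstep (Γ + 1) n (n / 20) (n / 20) ((n + n / 20) / 20) (WW Γ N t) y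
        (by positivity) (hg Γ N t hN20) (by omega) (by omega) (by omega)
      have hlo := loss θ h0 M hM0 hM n (n / 20) ((n + n / 20) / 20) (by omega) (by omega)
        (by omega)
      rw [e2, e1]
      refine le_trans ?_ hst
      have hnr : (0 : ℝ) < n := by
        have : (20 : ℝ) ≤ n := by exact_mod_cast hn20
        linarith
      -- the loss is at most `C / n`
      have hl : K * ((Γ : ℝ) + 1 + 1) * (n + 1) * (1 / ((n / 20 : ℕ) : ℝ) ^ 3 +
          ((n / 20 : ℕ) : ℝ) * θ ^ (n / 20) +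
          (((n + n / 20) / 20 : ℕ) : ℝ) * θ ^ ((n + n / 20) / 20)) ≤ C / n := by
        rw [le_div_iff₀ hnr, hC]
        have h5 : (0 : ℝ) ≤ K * ((Γ : ℝ) + 1 + 1) := by positivity
        calc K * ((Γ : ℝ) + 1 + 1) * (n + 1) * (1 / ((n / 20 : ℕ) : ℝ) ^ 3 +
              ((n / 20 : ℕ) : ℝ) * θ ^ (n / 20) +
              (((n + n / 20) / 20 : ℕ) : ℝ) * θ ^ ((n + n / 20) / 20)) * n
            = K * ((Γ : ℝ) + 1 + 1) * (n * ((n + 1) * (1 / ((n / 20 : ℕ) : ℝ) ^ 3 +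
              ((n / 20 : ℕ) : ℝ) * θ ^ (n / 20) +
              (((n + n / 20) / 20 : ℕ) : ℝ) * θ ^ ((n + n / 20) / 20)))) := by ring
          _ ≤ K * ((Γ : ℝ) + 1 + 1) * (3200 * (1 + 2 * M)) := mul_le_mul_of_nonneg_left hlo h5
      -- telescoping
      have htel : C / n ≤ 80 * C * (1 / n - 1 / ((n + n / 20 : ℕ) : ℝ)) := by
        have hm1 : 40 * (n + n / 20) ≥ 41 * n := by omega
        have hm2 : n + n / 20 ≤ 2 * n := by omega
        have hm1r : 41 * (n : ℝ) ≤ 40 * ((n + n / 20 : ℕ) : ℝ) := by exact_mod_cast hm1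
        have hm2r : ((n + n / 20 : ℕ) : ℝ) ≤ 2 * n := by exact_mod_cast hm2
        set m : ℝ := ((n + n / 20 : ℕ) : ℝ) with hm
        have hmp : 0 < m := by linarith
        have e3 : 1 / (n : ℝ) ≤ 80 * (1 / n - 1 / m) := by
          rw [div_sub_div _ _ hnr.ne' hmp.ne', mul_div_assoc', div_le_div_iff₀ hnr (by positivity)]
          nlinarith
        calc C / n = C * (1 / n) := by ring
          _ ≤ C * (80 * (1 / n - 1 / m)) := mul_le_mul_of_nonneg_left e3 hC0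
          _ = 80 * C * (1 / n - 1 / m) := by ring
      linarith
  intro t
  refine le_trans ?_ (key t)
  have hn : (0 : ℝ) < nn N t := by
    have := nn_ge N t
    have : (N : ℝ) ≤ nn N t := by exact_mod_cast this
    linarith
  have h6 : 80 * C * (1 / N - 1 / (nn N t : ℝ)) ≤ 80 * C * (1 / N) := by
    refine mul_le_mul_of_nonneg_left ?_ (by positivity)
    have : 0 < 1 / (nn N t : ℝ) := by positivity
    linarith
  have h7 : 80 * C * (1 / N) ≤ 1 / 10 := by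
    rw [mul_one_div, div_le_div_iff₀ hNr (by norm_num)]
    linarith
  linarith

end Pool.Agent.Lib.MP_edb5be_nt.PD.H50
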