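import Pool.Agent.Lib.MP_edb5be_nt.PD.Iface

/-!
Project PD (MP_edb5be_nt), module SPLIT (helper50).
-/

set_option autoImplicit false

namespace Pool.Agent.Lib.MP_edb5be_nt.PD.H50

open Finset Pool.Agent.Lib.MP_edb5be_nt.EX Pool.Agent.Lib.MP_edb5be_nt.PD

theorem wt_nonneg (u : List ℕ) : 0 ≤ wt u := by
  unfold wt
  positivity

theorem pr_le_mul (j : ℕ) (S S1 S2 : Finset (List ℕ)) (h1 : ∀ v ∈ S, v.take j ∈ S1)
    (h2 : ∀ v ∈ S, v.drop j ∈ S2) : pr S ≤ pr S1 * pr S2 := by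
  have e1 : pr S = ∑ v ∈ S, (1 : ℝ) / 2 ^ (v.take j).sum * (1 / 2 ^ (v.drop j).sum) := by
    unfold pr
    refine sum_congr rfl fun v _ => ?_
    have h : v.sum = (v.take j).sum + (v.drop j).sum := by
      conv_lhs => rw [← List.take_append_drop j v]
      rw [List.sum_append]
    rw [h, pow_add]
    field_simp
  have e2 : pr S1 * pr S2 =
      ∑ p ∈ S1 ×ˢ S2, (1 : ℝ) / 2 ^ p.1.sum * (1 / 2 ^ p.2.sum) := by
    unfold pr
    rw [sum_mul_sum, sum_product]
  have hinj : Set.InjOn (fun v : List ℕ => (v.take j, v.drop j)) S := by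
    intro v _ w _ h
    have h1 := congrArg Prod.fst h
    have h2 := congrArg Prod.snd h
    simp only at h1 h2
    rw [← List.take_append_drop j v, ← List.take_append_drop j w, h1, h2]
  rw [e1, e2, ← sum_image (f := fun p : List ℕ × List ℕ =>
    (1 : ℝ) / 2 ^ p.1.sum * (1 / 2 ^ p.2.sum)) (g := fun v : List ℕ => (v.take j, v.drop j)) hinj]
  refine sum_le_sum_of_subset_of_nonneg ?_ fun p _ _ => by positivity
  intro p hp
  obtain ⟨v, hv, rfl⟩ := mem_image.1 hp
  exact mem_product.2 ⟨h1 v hv, h2 v hv⟩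

theorem pr_nonneg (S : Finset (List ℕ)) : 0 ≤ pr S := by
  unfold pr
  exact sum_nonneg fun v _ => by positivity

/-- **SPLIT** -/
theorem split (hw : WordsStatement) (hm : MeanStatement) (hc : CompStatement)
    (ht : TailStatement) : SplitStatement := by
  obtain ⟨ht1, θ, hθ0, hθ1, ht2⟩ := ht
  have hle1 : ∀ A h : ℕ, pr (wds A h) ≤ 1 := by
    intro A h
    rw [ht1]
    have h1 : (1 : ℝ) / 2 ^ A ≤ 1 := by
      rw [div_le_one (by positivity)]
      exact one_le_pow₀ (by norm_num)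
    have h2 : (0 : ℝ) ≤ 1 / 2 ^ A := by positivity
    exact pow_le_one₀ (by linarith) (by linarith)
  refine ⟨2, θ, by norm_num, hθ0, hθ1, fun j J => ?_⟩
  set A : ℕ := 4 * (j + J) with hA
  -- membership in the sets of words
  have hR : ∀ t : List ℕ, t.length = j → (∀ a ∈ t, 1 ≤ a) →
      (199 * j ≤ 100 * t.sum ∧ 100 * t.sum ≤ 201 * j) → t ∈ Rw j := by
    intro t hl hp hs
    refine mem_filter.2 ⟨(hw.1 _ _ _).2 ⟨hl, fun a ha => ⟨hp a ha, ?_⟩⟩, hs⟩
    have := List.le_sum_of_mem ha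
    omega
  have hU : ∀ t : List ℕ, t.length = J → (∀ a ∈ t, 1 ≤ a) → t.sum ≤ 4 * J → t ∈ Uw J := by
    intro t hl hp hs
    refine mem_filter.2 ⟨(hw.1 _ _ _).2 ⟨hl, fun a ha => ⟨hp a ha, ?_⟩⟩, hs⟩
    have := List.le_sum_of_mem ha
    omega
  have hUw : ∀ v ∈ Uw (j + J), v.length = j + J ∧ ∀ a ∈ v, 1 ≤ a ∧ a ≤ A := by
    intro v hv
    exact (hw.1 _ _ _).1 (mem_filter.1 hv).1
  have htk : ∀ v ∈ Uw (j + J), v.take j ∈ wds A j := by
    intro v hv
    obtain ⟨h1, h2⟩ := hUw v hv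
    refine (hw.1 _ _ _).2 ⟨?_, fun a ha => h2 a (List.mem_of_mem_take ha)⟩
    rw [List.length_take, h1]
    omega
  have hdr : ∀ v ∈ Uw (j + J), v.drop j ∈ wds A J := by
    intro v hv
    obtain ⟨h1, h2⟩ := hUw v hv
    refine (hw.1 _ _ _).2 ⟨?_, fun a ha => h2 a (List.mem_of_mem_drop ha)⟩
    rw [List.length_drop, h1]
    omega
  set B1 : Finset (List ℕ) := (Uw (j + J)).filter fun v => v.take j ∉ Rw j with hB1
  set B2 : Finset (List ℕ) := (Uw (j + J)).filter fun v => v.drop j ∉ Uw J with hB2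
  have hp1 : pr B1 ≤ 2 * j * θ ^ j := by
    have h1 := pr_le_mul j B1
      ((wds A j).filter fun u => ¬ (199 * j ≤ 100 * u.sum ∧ 100 * u.sum ≤ 201 * j)) (wds A J)
      (by
        intro v hv
        obtain ⟨hv1, hv2⟩ := mem_filter.1 hv
        refine mem_filter.2 ⟨htk v hv1, fun hs => hv2 ?_⟩
        obtain ⟨hl, hp⟩ := (hw.1 _ _ _).1 (htk v hv1)
        exact hR _ hl (fun a ha => (hp a ha).1) hs)
      (fun v hv => hdr v (mem_filter.1 hv).1)
    refine h1.trans (le_trans (mul_le_of_le_one_right (pr_nonneg _) (hle1 _ _)) (ht2 A j))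
  have hp2 : pr B2 ≤ 2 * J * θ ^ J := by
    have h1 := pr_le_mul j B2 (wds A j)
      ((wds A J).filter fun u => ¬ (199 * J ≤ 100 * u.sum ∧ 100 * u.sum ≤ 201 * J))
      (fun v hv => htk v (mem_filter.1 hv).1)
      (by
        intro v hv
        obtain ⟨hv1, hv2⟩ := mem_filter.1 hv
        refine mem_filter.2 ⟨hdr v hv1, fun hs => hv2 ?_⟩
        obtain ⟨hl, hp⟩ := (hw.1 _ _ _).1 (hdr v hv1)
        refine hU _ hl (fun a ha => (hp a ha).1) ?_
        have := hs.2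
        omega)
    refine h1.trans (le_trans (mul_le_of_le_one_left (pr_nonneg _) (hle1 _ _)) (ht2 A J))
  set Bad : Finset (List ℕ) := B1 ∪ B2 with hBad
  have hpB : pr Bad ≤ 2 * (j * θ ^ j + J * θ ^ J) := by
    have h1 : pr (B1 ∪ B2) + pr (B1 ∩ B2) = pr B1 + pr B2 := by
      unfold pr
      exact sum_union_inter
    have h2 := pr_nonneg (B1 ∩ B2)
    rw [hBad]
    linarith
  have hBl : ∀ u ∈ Bad, u.length = j + J := by
    intro u hu
    rcases mem_union.1 hu with h | h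
    · exact (hUw u (mem_filter.1 h).1).1
    · exact (hUw u (mem_filter.1 h).1).1
  obtain ⟨hm1, hm2⟩ := hm (j + J) 0 Bad (fun _ => 1) hBl (fun x => rfl)
  refine ⟨su Bad fun _ => 1, fun x => ?_, fun x => ?_, ?_, fun x => ?_⟩
  · unfold su
    exact sum_nonneg fun u _ => mul_nonneg (wt_nonneg u) zero_le_one
  · have := hm1 x
    simpa using this
  · have h3 : ∑ x ∈ range (3 ^ (j + J)), su Bad (fun _ => 1) x = 3 ^ (j + J) * pr Bad := by
      have := hm2
      simpa using this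
    rw [h3, mul_div_cancel_left₀ _ (by positivity)]
    exact hpB
  · have hco := hc j J (Rw j) (Uw J) (fun _ => 1) x
      (fun u hu => ((hw.1 _ _ _).1 (mem_filter.1 hu).1).1)
      (fun u hu => ((hw.1 _ _ _).1 (mem_filter.1 hu).1).1)
    have hFd : su (Rw j) (Fd J) x = su (cat (Rw j) (Uw J)) (fun _ => 1) x := hco.symm
    rw [hFd]
    unfold Fd su
    have hsub : (Uw (j + J)).filter (Ad x) ⊆
        (cat (Rw j) (Uw J)).filter (Ad x) ∪ Bad.filter (Ad x) := by
      intro v hv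
      obtain ⟨hv1, hv2⟩ := mem_filter.1 hv
      by_cases h1 : v.take j ∈ Rw j
      · by_cases h2 : v.drop j ∈ Uw J
        · refine mem_union_left _ (mem_filter.2 ⟨?_, hv2⟩)
          unfold cat
          exact mem_image.2 ⟨(v.take j, v.drop j), mem_product.2 ⟨h1, h2⟩,
            List.take_append_drop j v⟩
        · exact mem_union_right _ (mem_filter.2 ⟨mem_union_right _ (mem_filter.2 ⟨hv1, h2⟩), hv2⟩)
      · exact mem_union_right _ (mem_filter.2 ⟨mem_union_left _ (mem_filter.2 ⟨hv1, h1⟩), hv2⟩)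
    have h4 : ∀ S : Finset (List ℕ), 0 ≤ ∑ u ∈ S, wt u * (1 : ℝ) := fun S =>
      sum_nonneg fun u _ => mul_nonneg (wt_nonneg u) zero_le_one
    calc ∑ u ∈ (Uw (j + J)).filter (Ad x), wt u * 1
        ≤ ∑ u ∈ (cat (Rw j) (Uw J)).filter (Ad x) ∪ Bad.filter (Ad x), wt u * 1 :=
          sum_le_sum_of_subset_of_nonneg hsub fun u _ _ => mul_nonneg (wt_nonneg u) zero_le_one
      _ ≤ ∑ u ∈ (cat (Rw j) (Uw J)).filter (Ad x), wt u * 1 +
          ∑ u ∈ Bad.filter (Ad x), wt u * 1 := by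
          rw [← sum_union_inter]
          linarith [h4 ((cat (Rw j) (Uw J)).filter (Ad x) ∩ Bad.filter (Ad x))]

end Pool.Agent.Lib.MP_edb5be_nt.PD.H50
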