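import Pool.Agent.Lib.MP_edb5be_nt.PD.Iface2
import Pool.Agent.Lib.MP_edb5be_nt.PD.H57.Comp
import Pool.Agent.Lib.MP_edb5be_nt.PD.H57.Dens

/-!
Project PD (MP_edb5be_nt), module UCLASS (helper50).
-/

set_option autoImplicit false

namespace Pool.Agent.Lib.MP_edb5be_nt.PD.H50

open Finset Pool.Agent.Lib.MP_edb5be_nt.EX Pool.Agent.Lib.MP_edb5be_nt.PD

namespace UC

/-- the error terms tend to zero -/
theorem err (ε : ℝ) (hε : 0 < ε) : ∃ n₀ : ℕ, ∀ n : ℕ, n₀ ≤ n →
    1 ≤ Nat.sqrt (n / 800) ∧ ((n : ℝ) + 1) ^ 2 * n / (Nat.sqrt (n / 800) : ℝ) ^ 8 ≤ ε := by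
  set R : ℕ := ⌈(8000 : ℝ) ^ 3 / ε⌉₊ + 1 with hR
  refine ⟨800 * (R * R), fun n hn => ?_⟩
  set J : ℕ := Nat.sqrt (n / 800) with hJ
  have hRJ : R ≤ J := by
    rw [hJ, Nat.le_sqrt]
    omega
  have hJ1 : 1 ≤ J := by omega
  have hlt : n / 800 < (J + 1) * (J + 1) := Nat.lt_succ_sqrt (n / 800)
  have hn1 : n + 1 ≤ 8000 * (J * J) := by
    have h1 : (J + 1) * (J + 1) ≤ 4 * (J * J) := by nlinarith
    have h2 : 1 ≤ J * J := Nat.mul_pos hJ1 hJ1
    omega
  refine ⟨hJ1, ?_⟩
  have hJr : (1 : ℝ) ≤ J := by exact_mod_cast hJ1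
  have hn2 : (n : ℝ) + 1 ≤ 8000 * (J * J) := by exact_mod_cast hn1
  have hn0 : (0 : ℝ) ≤ n := Nat.cast_nonneg n
  have h3 : ((n : ℝ) + 1) ^ 2 * n ≤ (8000 * ((J : ℝ) * J)) ^ 3 := by
    calc ((n : ℝ) + 1) ^ 2 * n ≤ (8000 * ((J : ℝ) * J)) ^ 2 * (8000 * (J * J)) := by
          refine mul_le_mul (pow_le_pow_left₀ (by positivity) hn2 2) (by linarith) hn0
            (by positivity)
      _ = (8000 * ((J : ℝ) * J)) ^ 3 := by ring
  have h4 : (8000 : ℝ) ^ 3 / ε ≤ J := by
    have h5 := Nat.le_ceil ((8000 : ℝ) ^ 3 / ε)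
    have h6 : ((⌈(8000 : ℝ) ^ 3 / ε⌉₊ : ℕ) : ℝ) ≤ J := by
      exact_mod_cast (by omega : ⌈(8000 : ℝ) ^ 3 / ε⌉₊ ≤ J)
    linarith
  rw [div_le_iff₀ hε] at h4
  rw [div_le_iff₀ (by positivity)]
  calc ((n : ℝ) + 1) ^ 2 * n ≤ (8000 * ((J : ℝ) * J)) ^ 3 := h3
    _ = 8000 ^ 3 * (J : ℝ) ^ 6 := by ring
    _ ≤ (J * ε) * (J : ℝ) ^ 6 := mul_le_mul_of_nonneg_right h4 (by positivity)
    _ = ε * (J : ℝ) ^ 7 := by ring
    _ ≤ ε * (J : ℝ) ^ 8 := mul_le_mul_of_nonneg_left (pow_le_pow_right₀ hJr (by norm_num)) hε.le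

/-- a period and its multiples -/
theorem lift {a J : ℕ} (h : a ≤ J) (f : ℤ → ℝ) (hf : ∀ x, f (x + 3 ^ a) = f x) :
    (∀ x, f (x + 3 ^ J) = f x) ∧
      (∑ x ∈ range (3 ^ J), f x) / 3 ^ J = (∑ x ∈ range (3 ^ a), f x) / 3 ^ a := by
  have hf' : ∀ x, f (x + ((3 ^ a : ℕ) : ℤ)) = f x := fun x => by
    push_cast
    exact hf x
  have hk : ∀ (k : ℕ) (x : ℤ), f (x + k * 3 ^ a) = f x := by
    intro k
    induction k with
    | zero => intro x; simp
    | succ k ih =>
      intro x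
      have e : x + ((k + 1 : ℕ) : ℤ) * 3 ^ a = (x + k * 3 ^ a) + 3 ^ a := by push_cast; ring
      rw [e, hf, ih]
  constructor
  · intro x
    have e : (3 : ℤ) ^ J = ((3 ^ (J - a) : ℕ) : ℤ) * 3 ^ a := by
      push_cast
      rw [← pow_add]
      congr 1
      omega
    rw [e]
    exact hk _ x
  · have h1 := H57.sum_periods hf' 0 (3 ^ (J - a))
    have e : 3 ^ (J - a) * 3 ^ a = 3 ^ J := by
      rw [← pow_add]
      congr 1
      omega
    rw [e] at h1
    simp only [zero_add] at h1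
    rw [h1]
    have e' : (3 : ℝ) ^ J = 3 ^ (J - a) * 3 ^ a := by
      rw [← pow_add]
      congr 1
      omega
    rw [e']
    push_cast
    field_simp

theorem Uw_len (hw : WordsStatement) (J : ℕ) (u : List ℕ) (hu : u ∈ Uw J) : u.length = J :=
  ((hw.1 _ _ _).1 (mem_filter.1 hu).1).1

theorem Fd_per (hw : WordsStatement) (hm : MeanStatement) (J : ℕ) (x : ℤ) :
    Fd J (x + 3 ^ J) = Fd J x := by
  have h := (hm J 0 (Uw J) (fun _ => 1) (Uw_len hw J) (fun _ => rfl)).1 x
  simpa [Fd] using h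

theorem wt_nn (u : List ℕ) : 0 ≤ wt u := by
  unfold wt
  positivity

theorem Fd_nn (J : ℕ) (x : ℤ) : 0 ≤ Fd J x := by
  unfold Fd su
  exact sum_nonneg fun u _ => mul_nonneg (wt_nn u) zero_le_one

theorem nn_ge (N : ℕ) (hN : 20 ≤ N) (t : ℕ) : N + t ≤ nn N t := by
  induction t with
  | zero => exact le_refl _
  | succ t ih =>
    have h : nn N (t + 1) = nn N t + nn N t / 20 := rfl
    omega

/-- the number of the words of a scale, for one starting point `z` -/
theorem card_T (hw : WordsStatement) (L : ℕ) (z : ℤ) :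
    ((((IL L).biUnion fun m => (Bw m (L + lb m)).filter (Ad z)).card : ℕ) : ℝ) =
      2 ^ L * VL L z := by
  rw [card_biUnion]
  · unfold VL
    rw [mul_sum]
    push_cast
    refine sum_congr rfl fun m _ => ?_
    field_simp
  · intro m _ m' _ hmm
    rw [Function.onFun, disjoint_left]
    intro v hv hv'
    have h1 := ((hw.1 _ _ _).1 (mem_filter.1 (mem_filter.1 hv).1).1).1
    have h2 := ((hw.1 _ _ _).1 (mem_filter.1 (mem_filter.1 hv').1).1).1
    exact hmm (h1.symm.trans h2)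

end UC

open UC in
/-- **UCLASS** -/
theorem uclass (hw : WordsStatement) (hm : MeanStatement) (hx : MixStatement)
    (hc : ClassStatement) (hwi : WindowStatement) (hv : VLowStatement) (hd : DensBStatement) :
    UClassStatement := by
  classical
  obtain ⟨Γ, N, k, y₀, hN, hy₀, hcl⟩ := hc
  obtain ⟨cv, hcv, hV⟩ := hv
  obtain ⟨CV, hCV, hV⟩ := hV 8
  obtain ⟨CM, hCM, hM⟩ := hx 8
  obtain ⟨hlb, -⟩ := hwi
  set G : ℝ := (Γ : ℝ) + 1 + 1 with hG
  have hG0 : 0 < G := by positivity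
  set ε : ℝ := min (1 / (20 * (G * CM))) (cv / (20 * (G * CV))) with hε
  have hε0 : 0 < ε := by positivity
  obtain ⟨n₀, hn₀⟩ := err ε hε0
  set L₁ : ℕ := n₀ + 5000 + N with hL₁
  refine ⟨Γ + 2, k, y₀, min (cv / 4) (1 / 2 ^ L₁), by positivity, hy₀, fun y hy L => ?_⟩
  rcases lt_or_ge L L₁ with hL | hL
  · -- small `L`
    refine ⟨{[]}, ?_, ?_⟩
    · intro u hu
      rw [mem_singleton] at hu
      subst hu
      refine ⟨by simp, by simp [Ad], ?_, by simp [cc]⟩
      simpa using Nat.one_le_two_pow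
    · rw [card_singleton]
      push_cast
      calc min (cv / 4) (1 / 2 ^ L₁) * 2 ^ L ≤ 1 / 2 ^ L₁ * 2 ^ L₁ := by
            refine mul_le_mul (min_le_right _ _) ?_ (by positivity) (by positivity)
            exact pow_le_pow_right₀ (by norm_num) hL.le
        _ = 1 := by field_simp
  · -- the scale
    have hex : ∃ t, 20 * L < 9 * nn N t := ⟨20 * L, by have := nn_ge N hN (20 * L); omega⟩
    obtain ⟨t, ht1, ht2⟩ : ∃ t, 9 * nn N t ≤ 20 * L ∧ 20 * L < 9 * nn N (t + 1) := by
      have h1 := Nat.find_spec hex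
      have h2 : Nat.find hex ≠ 0 := by
        intro h
        rw [h] at h1
        have : nn N 0 = N := rfl
        omega
      obtain ⟨t, ht⟩ := Nat.exists_eq_succ_of_ne_zero h2
      rw [ht] at h1
      refine ⟨t, ?_, h1⟩
      have h3 := Nat.find_min hex (m := t) (by omega)
      omega
    have hnn : nn N (t + 1) = nn N t + nn N t / 20 := rfl
    rw [hnn] at ht2
    obtain ⟨hGW, hsu⟩ := hcl y hy t
    set n : ℕ := nn N t with hn
    have hn2 : 400 * L < 189 * n := by omega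
    have hnL : 2 * L ≤ n := by omega
    obtain ⟨hJ1, herr⟩ := hn₀ n (by omega)
    have hn5 : 5000 ≤ n := by omega
    set J : ℕ := Nat.sqrt (n / 800) with hJ
    have hJJ : J * J ≤ n / 800 := Nat.sqrt_le (n / 800)
    have hJle : J ≤ J * J := Nat.le_mul_self J
    have hJn : J ≤ n / 20 := by omega
    set W : Finset (List ℕ) := WW Γ N t with hW
    obtain ⟨hlbn1, hlbn2, hlbn3, hlbn4⟩ := hlb n
    -- the sums
    have hb : ∀ b : ℕ, 199 * n ≤ 100 * b → 100 * b ≤ 201 * n →
        b ≤ L + lb n ∧ 24 * n ≤ 1000 * (L + lb n - b) + 1000 ∧ 12 * (L + lb n - b) ≤ n ∧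
          100 ≤ L + lb n - b ∧ 16 * J ^ 2 ≤ L + lb n - b := by
      intro b hb1 hb2
      have hsq : 16 * J ^ 2 = 16 * (J * J) := by ring
      refine ⟨by omega, by omega, by omega, by omega, by rw [hsq]; omega⟩
    -- the error functions
    have hE : ∀ b : ℕ, ∃ e : ℤ → ℝ, (∀ z, 0 ≤ e z) ∧ (∀ z, e (z + 3 ^ (n / 4)) = e z) ∧
        (199 * n ≤ 100 * b → 100 * b ≤ 201 * n →
          (∑ x ∈ range (3 ^ (n / 4)), e x) / 3 ^ (n / 4) ≤ CV * n / J ^ 8 ∧
          ∀ z, cv * Fd J z - e z ≤ VL (L + lb n - b) z) := by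
      intro b
      by_cases hbb : 199 * n ≤ 100 * b ∧ 100 * b ≤ 201 * n
      · obtain ⟨h1, h2, h3, h4, h5⟩ := hb b hbb.1 hbb.2
        obtain ⟨e, he0, hep, hem, hel⟩ := hV (L + lb n - b) J h4 hJ1 h5
        have hle : 3 * (L + lb n - b) ≤ n / 4 := by omega
        obtain ⟨hp, hs⟩ := lift hle e hep
        refine ⟨e, he0, hp, fun _ _ => ⟨?_, hel⟩⟩
        rw [hs]
        refine hem.trans ?_
        refine div_le_div_of_nonneg_right ?_ (by positivity)
        refine mul_le_mul_of_nonneg_left ?_ hCV.le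
        exact_mod_cast (by omega : L + lb n - b ≤ n)
      · exact ⟨fun _ => 0, fun _ => le_refl _, fun _ => rfl, fun h1 h2 => absurd ⟨h1, h2⟩ hbb⟩
    choose e he0 hep hel using hE
    have hnr : (1 : ℝ) ≤ n := by exact_mod_cast (by omega : 1 ≤ n)
    have hJr : (0 : ℝ) < (J : ℝ) ^ 8 := by
      have : (0 : ℝ) < J := by exact_mod_cast hJ1
      positivity
    -- the two error sums
    have hA2 : ∑ u ∈ W.filter (Ad y), wt u * e u.sum (zz y u) ≤ cv / 20 := by
      have h1 := hd ((Γ : ℝ) + 1) (CV * n / J ^ 8) n (n / 4) W e y (by positivity) (by positivity)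
        hGW (by omega) he0 hep (fun b h1 h2 => (hel b h1 h2).1)
      refine h1.trans ?_
      have h2 : ((n : ℝ) + 1) ^ 2 * n / (J : ℝ) ^ 8 ≤ cv / (20 * (G * CV)) :=
        herr.trans (min_le_right _ _)
      calc G * ((n : ℝ) + 1) ^ 2 * (CV * n / J ^ 8)
          = G * CV * (((n : ℝ) + 1) ^ 2 * n / (J : ℝ) ^ 8) := by ring
        _ ≤ G * CV * (cv / (20 * (G * CV))) := mul_le_mul_of_nonneg_left h2 (by positivity)
        _ = cv / 20 := by field_simp
    have hA3 : ∑ u ∈ W.filter (Ad y), wt u * |Fd (n / 20) (zz y u) - Fd J (zz y u)| ≤ 1 / 20 := by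
      have hper1 : ∀ x, Fd (n / 20) (x + 3 ^ (n / 20)) = Fd (n / 20) x := Fd_per hw hm _
      have hper2 : ∀ x, Fd J (x + 3 ^ (n / 20)) = Fd J x :=
        (lift hJn (Fd J) (Fd_per hw hm J)).1
      have h1 := hd ((Γ : ℝ) + 1) (CM / J ^ 8) n (n / 20) W
        (fun _ x => |Fd (n / 20) x - Fd J x|) y (by positivity) (by positivity) hGW (by omega)
        (fun _ _ => abs_nonneg _) (fun _ x => by rw [hper1, hper2]) (fun b _ _ => by
          rw [div_le_iff₀ (by positivity)]
          exact hM J (n / 20) hJ1 hJn)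
      refine h1.trans ?_
      have h2 : ((n : ℝ) + 1) ^ 2 * n / (J : ℝ) ^ 8 ≤ 1 / (20 * (G * CM)) :=
        herr.trans (min_le_left _ _)
      have h3 : ((n : ℝ) + 1) ^ 2 / (J : ℝ) ^ 8 ≤ ((n : ℝ) + 1) ^ 2 * n / (J : ℝ) ^ 8 := by
        refine div_le_div_of_nonneg_right ?_ hJr.le
        exact le_mul_of_one_le_right (by positivity) hnr
      calc G * ((n : ℝ) + 1) ^ 2 * (CM / J ^ 8)
          = G * CM * (((n : ℝ) + 1) ^ 2 / (J : ℝ) ^ 8) := by ring
        _ ≤ G * CM * (1 / (20 * (G * CM))) :=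
          mul_le_mul_of_nonneg_left (h3.trans h2) (by positivity)
        _ = 1 / 20 := by field_simp
    have hA1 : 13 / 20 ≤ ∑ u ∈ W.filter (Ad y), wt u * Fd J (zz y u) := by
      have h1 : ∑ u ∈ W.filter (Ad y), wt u * Fd (n / 20) (zz y u) ≤
          ∑ u ∈ W.filter (Ad y), wt u * Fd J (zz y u) +
            ∑ u ∈ W.filter (Ad y), wt u * |Fd (n / 20) (zz y u) - Fd J (zz y u)| := by
        rw [← sum_add_distrib]
        refine sum_le_sum fun u _ => ?_
        rw [← mul_add]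
        refine mul_le_mul_of_nonneg_left ?_ (wt_nn u)
        have := le_abs_self (Fd (n / 20) (zz y u) - Fd J (zz y u))
        linarith
      have h2 : 7 / 10 ≤ ∑ u ∈ W.filter (Ad y), wt u * Fd (n / 20) (zz y u) := hsu
      linarith
    -- the words
    set T : List ℕ → Finset (List ℕ) := fun u =>
      (IL (L + lb n - u.sum)).biUnion fun m =>
        (Bw m (L + lb n - u.sum + lb m)).filter (Ad (zz y u)) with hT
    set S : Finset (List ℕ) := (W.filter (Ad y)).biUnion fun u => (T u).image fun v => u ++ v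
      with hS
    have hWlen : ∀ u ∈ W, u.length = n := hGW.len
    refine ⟨S, ?_, ?_⟩
    · intro w hwS
      obtain ⟨u, hu, hwu⟩ := mem_biUnion.1 hwS
      obtain ⟨v, hvT, rfl⟩ := mem_image.1 hwu
      obtain ⟨m, hmI, hvm⟩ := mem_biUnion.1 hvT
      obtain ⟨hvB, hvAd⟩ := mem_filter.1 hvm
      obtain ⟨hvw, hvs⟩ := mem_filter.1 hvB
      obtain ⟨hvl, hvp⟩ := (hw.1 _ _ _).1 hvw
      obtain ⟨huW, huA⟩ := mem_filter.1 hu
      have hul := hWlen u huW
      obtain ⟨hb1, hb2, hb3, hb4, hb5⟩ := hb u.sum (hGW.lo u huW) (hGW.hi u huW)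
      have hm3 : m < 3 * (L + lb n - u.sum) := mem_range.1 (mem_filter.1 hmI).1
      have hup : ∀ a ∈ u, 1 ≤ a := hGW.pos u huW
      have hvp1 : ∀ a ∈ v, 1 ≤ a := fun a ha => (hvp a ha).1
      refine ⟨?_, (H57.ad_append hw huA).2 hvAd, ?_, ?_⟩
      · intro a ha
        rcases List.mem_append.1 ha with h | h
        · exact hup a h
        · exact hvp1 a h
      · obtain ⟨hm1, -, -, -⟩ := hlb m
        have e : (u ++ v).sum = L + lb n + lb m := by
          rw [List.sum_append, hvs]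
          omega
        rw [e, List.length_append, hul, hvl, pow_add, pow_add, pow_add, mul_assoc]
        exact Nat.mul_le_mul_left _ (Nat.mul_le_mul hlbn1 hm1)
      · have hcu : cc u ≤ (Γ + 1) * 2 ^ u.sum := by
          have := hGW.cb u huW
          exact_mod_cast this
        have hcvm : 3 ^ n * cc v ≤ 2 ^ (u ++ v).sum := by
          have h1 := hw.2.2.1 v hvp1
          rw [hvl] at h1
          obtain ⟨-, hnm2, -, hnm4⟩ := hlb (n + m)
          have h2 : 3 ^ (n + m) ≤ 2 ^ (u.sum + m) := by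
            refine hnm2.le.trans (Nat.pow_le_pow_right (by norm_num) ?_)
            have := hGW.lo u huW
            omega
          have h3 : 3 ^ n * cc v * 2 ^ m ≤ 2 ^ (u ++ v).sum * 2 ^ m := by
            calc 3 ^ n * cc v * 2 ^ m = 3 ^ n * (cc v * 2 ^ m) := by ring
              _ ≤ 3 ^ n * (2 ^ v.sum * (3 ^ m - 2 ^ m)) := Nat.mul_le_mul_left _ h1
              _ ≤ 3 ^ n * (2 ^ v.sum * 3 ^ m) :=
                Nat.mul_le_mul_left _ (Nat.mul_le_mul_left _ (Nat.sub_le _ _))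
              _ = 2 ^ v.sum * 3 ^ (n + m) := by rw [pow_add]; ring
              _ ≤ 2 ^ v.sum * 2 ^ (u.sum + m) := Nat.mul_le_mul_left _ h2
              _ = 2 ^ (u ++ v).sum * 2 ^ m := by
                rw [List.sum_append, pow_add, pow_add]
                ring
          exact Nat.le_of_mul_le_mul_right h3 (by positivity)
        rw [hw.2.1, hul]
        calc 2 ^ v.sum * cc u + 3 ^ n * cc v
            ≤ 2 ^ v.sum * ((Γ + 1) * 2 ^ u.sum) + 2 ^ (u ++ v).sum :=
              Nat.add_le_add (Nat.mul_le_mul_left _ hcu) hcvm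
          _ = (Γ + 2) * 2 ^ (u ++ v).sum := by
              rw [List.sum_append, pow_add]
              ring
    · -- the number of the words
      have hcard : (S.card : ℝ) =
          ∑ u ∈ W.filter (Ad y), (2 : ℝ) ^ (L + lb n - u.sum) * VL (L + lb n - u.sum) (zz y u) := by
        rw [hS, card_biUnion]
        · push_cast
          refine sum_congr rfl fun u _ => ?_
          rw [card_image_of_injective _ (List.append_right_injective u)]
          exact card_T hw _ _
        · intro u hu u' hu' huu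
          rw [Function.onFun, disjoint_left]
          intro w hw1 hw2
          obtain ⟨v, -, hv⟩ := mem_image.1 hw1
          obtain ⟨v', -, hv'⟩ := mem_image.1 hw2
          have hl : u.length = u'.length := by
            rw [hWlen u (mem_filter.1 hu).1, hWlen u' (mem_filter.1 hu').1]
          exact huu (List.append_inj (hv.trans hv'.symm) hl).1
      have hlow : ∀ u ∈ W.filter (Ad y),
          (2 : ℝ) ^ L * (cv / 2 * (wt u * Fd J (zz y u)) - wt u * e u.sum (zz y u)) ≤
            (2 : ℝ) ^ (L + lb n - u.sum) * VL (L + lb n - u.sum) (zz y u) := by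
        intro u hu
        obtain ⟨huW, huA⟩ := mem_filter.1 hu
        have hul := hWlen u huW
        obtain ⟨hb1, hb2, hb3, hb4, hb5⟩ := hb u.sum (hGW.lo u huW) (hGW.hi u huW)
        have h1 := (hel u.sum (hGW.lo u huW) (hGW.hi u huW)).2 (zz y u)
        have h2 := he0 u.sum (zz y u)
        have h3 := Fd_nn J (zz y u)
        have hpow : (2 : ℝ) ^ (L + lb n - u.sum) * 2 ^ u.sum = 2 ^ L * 2 ^ lb n := by
          rw [← pow_add, ← pow_add]
          congr 1
          omega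
        have hwt : wt u * 2 ^ u.sum = 3 ^ n := by
          unfold wt
          rw [hul]
          field_simp
        have hlb1 : (2 : ℝ) ^ lb n ≤ 3 ^ n := by exact_mod_cast hlbn1
        have hlb2 : (3 : ℝ) ^ n ≤ 2 ^ lb n * 2 := by
          have : (3 : ℝ) ^ n < 2 ^ (lb n + 1) := by exact_mod_cast hlbn2
          rw [pow_succ] at this
          exact this.le
        have h2s : (0 : ℝ) < 2 ^ u.sum := by positivity
        have hup : (2 : ℝ) ^ (L + lb n - u.sum) ≤ 2 ^ L * wt u := by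
          refine le_of_mul_le_mul_right ?_ h2s
          rw [hpow, mul_assoc, hwt]
          exact mul_le_mul_of_nonneg_left hlb1 (by positivity)
        have hdn : (2 : ℝ) ^ L * wt u / 2 ≤ (2 : ℝ) ^ (L + lb n - u.sum) := by
          refine le_of_mul_le_mul_right ?_ h2s
          rw [hpow]
          calc (2 : ℝ) ^ L * wt u / 2 * 2 ^ u.sum = 2 ^ L * (wt u * 2 ^ u.sum) / 2 := by ring
            _ = 2 ^ L * 3 ^ n / 2 := by rw [hwt]
            _ ≤ 2 ^ L * (2 ^ lb n * 2) / 2 := by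
              refine div_le_div_of_nonneg_right ?_ (by norm_num)
              exact mul_le_mul_of_nonneg_left hlb2 (by positivity)
            _ = 2 ^ L * 2 ^ lb n := by ring
        calc (2 : ℝ) ^ L * (cv / 2 * (wt u * Fd J (zz y u)) - wt u * e u.sum (zz y u))
            = (2 : ℝ) ^ L * wt u / 2 * (cv * Fd J (zz y u)) -
                2 ^ L * wt u * e u.sum (zz y u) := by ring
          _ ≤ (2 : ℝ) ^ (L + lb n - u.sum) * (cv * Fd J (zz y u)) -
                2 ^ (L + lb n - u.sum) * e u.sum (zz y u) := by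
              have h4 := mul_le_mul_of_nonneg_right hdn (mul_nonneg hcv.le h3)
              have h5 := mul_le_mul_of_nonneg_right hup h2
              linarith
          _ = (2 : ℝ) ^ (L + lb n - u.sum) * (cv * Fd J (zz y u) - e u.sum (zz y u)) := by ring
          _ ≤ _ := mul_le_mul_of_nonneg_left h1 (by positivity)
      rw [hcard]
      refine le_trans ?_ (sum_le_sum hlow)
      rw [← mul_sum, sum_sub_distrib, ← mul_sum]
      have h2L : (0 : ℝ) < 2 ^ L := by positivity
      have h6 : cv / 4 ≤ cv / 2 * ∑ u ∈ W.filter (Ad y), wt u * Fd J (zz y u) -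
          ∑ u ∈ W.filter (Ad y), wt u * e u.sum (zz y u) := by
        have h7 : cv / 2 * (13 / 20) ≤ cv / 2 * ∑ u ∈ W.filter (Ad y), wt u * Fd J (zz y u) :=
          mul_le_mul_of_nonneg_left hA1 (by positivity)
        linarith
      calc min (cv / 4) (1 / 2 ^ L₁) * 2 ^ L ≤ cv / 4 * 2 ^ L :=
            mul_le_mul_of_nonneg_right (min_le_left _ _) h2L.le
        _ = 2 ^ L * (cv / 4) := by ring
        _ ≤ _ := mul_le_mul_of_nonneg_left h6 h2L.le

end Pool.Agent.Lib.MP_edb5be_nt.PD.H50
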